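import Pool.Agent.W464.WLP.Defs2

/-!
# Task L4b of the WLP project
-/

set_option autoImplicit false

open MvPolynomial

namespace Pool.Agent.W454.WLP

/-- polynomial functions of two variables of total degree at most five -/
def Quint {K : Type*} [Field K] (F : K → K → K) : Prop :=
  ∃ c : ℕ → ℕ → K, ∀ u v, F u v =
    ∑ i ∈ Finset.range 6, ∑ j ∈ Finset.range (6 - i), c i j * u ^ i * v ^ j

theorem Quint.congr {K : Type*} [Field K] {F G : K → K → K} (h : F = G) (hF : Quint F) :
    Quint G := h ▸ hF

theorem Quint.add {K : Type*} [Field K] {F G : K → K → K} (hF : Quint F) (hG : Quint G) :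
    Quint (fun u v => F u v + G u v) := by
  obtain ⟨c, hc⟩ := hF
  obtain ⟨d, hd⟩ := hG
  refine ⟨fun i j => c i j + d i j, fun u v => ?_⟩
  beta_reduce
  rw [hc, hd, ← Finset.sum_add_distrib]
  refine Finset.sum_congr rfl fun i _ => ?_
  rw [← Finset.sum_add_distrib]
  refine Finset.sum_congr rfl fun j _ => ?_
  ring

theorem Quint.zero {K : Type*} [Field K] : Quint (fun _ _ : K => (0 : K)) := by
  refine ⟨fun _ _ => 0, fun u v => ?_⟩
  simp

theorem Quint.mono {K : Type*} [Field K] (a : K) (i j : ℕ) (h : i + j ≤ 5) :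
    Quint (fun u v : K => a * u ^ i * v ^ j) := by
  refine ⟨fun i' j' => if i' = i then (if j' = j then a else 0) else 0, fun u v => ?_⟩
  rw [Finset.sum_eq_single i]
  · rw [Finset.sum_eq_single j]
    · simp
    · intro b _ hb
      simp [hb]
    · intro hj
      exact absurd (Finset.mem_range.2 (by omega)) hj
  · intro b _ hb
    refine Finset.sum_eq_zero fun j' _ => ?_
    simp [hb]
  · intro hi
    exact absurd (Finset.mem_range.2 (by omega)) hi

theorem Quint.sum {K ι : Type*} [Field K] (s : Finset ι) (F : ι → K → K → K)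
    (h : ∀ x ∈ s, Quint (F x)) : Quint (fun u v => ∑ x ∈ s, F x u v) := by
  classical
  induction s using Finset.induction_on with
  | empty => simpa using Quint.zero (K := K)
  | insert a s ha ih =>
    have h1 := (h a (Finset.mem_insert_self a s)).add
      (ih fun x hx => h x (Finset.mem_insert_of_mem hx))
    refine Quint.congr ?_ h1
    funext u v
    rw [Finset.sum_insert ha]

theorem quint_of_homogeneous {K : Type*} [Field K] (p : MvPolynomial (Fin 4) K)
    (hp : p.IsHomogeneous 5) : Quint (fun u v : K => eval ![1, 0, u, v] p) := by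
  have h : (fun u v : K => eval ![1, 0, u, v] p) =
      fun u v => ∑ d ∈ p.support, p.coeff d * ∏ i, (![1, 0, u, v] : Fin 4 → K) i ^ d i := by
    funext u v
    exact eval_eq' _ _
  rw [h]
  refine Quint.sum _ _ fun d hd => ?_
  have hdeg : d 0 + d 1 + d 2 + d 3 = 5 := by
    have h1 := hp (mem_support_iff.1 hd)
    rw [Finsupp.weight_apply, Finsupp.sum_fintype _ _ (by simp)] at h1
    simpa [Fin.sum_univ_succ, add_assoc] using h1
  by_cases h1 : d 1 = 0
  · have h2 := Quint.mono (p.coeff d) (d 2) (d 3) (by omega)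
    refine Quint.congr ?_ h2
    funext u v
    simp [Fin.prod_univ_succ, h1, mul_assoc]
  · refine Quint.congr ?_ (Quint.zero (K := K))
    funext u v
    simp [Fin.prod_univ_succ, h1]


/-- the function vanishes at the points -/
theorem quint_vanish {K : Type*} [Field K] [CharZero K] (F : K → K → K) (hF : Quint F)
    (h : ∀ a b c : ℕ, a + b + c ≤ 4 → F ((b : K) + 19 / 4 * (a : K)) ((c : K) + 1 / 2 * (a : K)) = 0) :
    ∀ u v, F u v = 0 := by
  obtain ⟨c, hc⟩ := hF
  have e0 := h 0 0 0 (by norm_num)
  have e1 := h 0 0 1 (by norm_num)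
  have e2 := h 0 0 2 (by norm_num)
  have e3 := h 0 0 3 (by norm_num)
  have e4 := h 0 0 4 (by norm_num)
  have e5 := h 0 1 0 (by norm_num)
  have e6 := h 0 1 1 (by norm_num)
  have e7 := h 0 1 2 (by norm_num)
  have e8 := h 0 1 3 (by norm_num)
  have e9 := h 0 2 0 (by norm_num)
  have e10 := h 0 2 1 (by norm_num)
  have e11 := h 0 2 2 (by norm_num)
  have e12 := h 0 3 0 (by norm_num)
  have e13 := h 0 3 1 (by norm_num)
  have e14 := h 0 4 0 (by norm_num)
  have e15 := h 1 0 0 (by norm_num)
  have e16 := h 1 0 1 (by norm_num)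
  have e17 := h 1 0 2 (by norm_num)
  have e18 := h 1 0 3 (by norm_num)
  have e19 := h 1 1 0 (by norm_num)
  have e20 := h 1 2 0 (by norm_num)
  simp only [hc, Finset.sum_range_succ, Finset.sum_range_zero, Nat.reduceSub] at e0 e1 e2 e3 e4 e5 e6 e7 e8 e9 e10 e11 e12 e13 e14 e15 e16 e17 e18 e19 e20
  push_cast at e0 e1 e2 e3 e4 e5 e6 e7 e8 e9 e10 e11 e12 e13 e14 e15 e16 e17 e18 e19 e20
  have z00 : c 0 0 = 0 := by
    linear_combination (1) * e0
  have z01 : c 0 1 = 0 := by
    linear_combination (14159/3072) * e0 + (523/128) * e1 + (-5483/2176) * e2 + (2027/1248) * e3 + (-1831/14144) * e4 + (-43263/1280) * e5 + (-43263/10880) * e6 + (-43263/14144) * e7 + (-43263/35360) * e8 + (578151/8704) * e9 + (507357/28288) * e10 + (176985/28288) * e11 + (-23837913/396032) * e12 + (-821997/28288) * e13 + (4109985/226304) * e14 + (621/20) * e15 + (1242/221) * e16 + (-2277/1105) * e17 + (207/595) * e18 + (-5643/221) * e19 + (4807/884) * e20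
  have z02 : c 0 2 = 0 := by
    linear_combination (-51135/4096) * e0 + (-6931/1536) * e1 + (97907/26112) * e2 + (-4891/1664) * e3 + (35167/169728) * e4 + (72105/1024) * e5 + (72105/8704) * e6 + (360525/56576) * e7 + (72105/28288) * e8 + (-4817925/34816) * e9 + (-4227975/113152) * e10 + (-1474875/113152) * e11 + (198649275/1584128) * e12 + (6849975/113152) * e13 + (-34249875/905216) * e14 + (-1035/16) * e15 + (-5175/442) * e16 + (3795/884) * e17 + (-345/476) * e18 + (47025/884) * e19 + (-120175/10608) * e20
  have z03 : c 0 3 = 0 := by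
    linear_combination (229615/24576) * e0 + (4993/3072) * e1 + (-67873/52224) * e2 + (15883/9984) * e3 + (-25189/339456) * e4 + (-100947/2048) * e5 + (-100947/17408) * e6 + (-504735/113152) * e7 + (-100947/56576) * e8 + (6745095/69632) * e9 + (5919165/226304) * e10 + (2064825/226304) * e11 + (-39729855/452608) * e12 + (-9589965/226304) * e13 + (47949825/1810432) * e14 + (1449/32) * e15 + (7245/884) * e16 + (-5313/1768) * e17 + (69/136) * e18 + (-65835/1768) * e19 + (168245/21216) * e20
  have z04 : c 0 4 = 0 := by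
    linear_combination (-11251/4096) * e0 + (-311/1536) * e1 + (1303/26112) * e2 + (-479/1664) * e3 + (-1453/169728) * e4 + (14421/1024) * e5 + (14421/8704) * e6 + (72105/56576) * e7 + (14421/28288) * e8 + (-963585/34816) * e9 + (-845595/113152) * e10 + (-294975/113152) * e11 + (39729855/1584128) * e12 + (1369995/113152) * e13 + (-6849975/905216) * e14 + (-207/16) * e15 + (-1035/442) * e16 + (759/884) * e17 + (-69/476) * e18 + (9405/884) * e19 + (-24035/10608) * e20
  have z05 : c 0 5 = 0 := by
    linear_combination (6853/24576) * e0 + (11/3072) * e1 + (1045/52224) * e2 + (121/9984) * e3 + (1705/339456) * e4 + (-14421/10240) * e5 + (-14421/87040) * e6 + (-14421/113152) * e7 + (-14421/282880) * e8 + (192717/69632) * e9 + (169119/226304) * e10 + (58995/226304) * e11 + (-7945971/3168256) * e12 + (-273999/226304) * e13 + (1369995/1810432) * e14 + (207/160) * e15 + (207/884) * e16 + (-759/8840) * e17 + (69/4760) * e18 + (-1881/1768) * e19 + (4807/21216) * e20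
  have z10 : c 1 0 = 0 := by
    linear_combination (-3911/1824) * e0 + (-3/76) * e1 + (-5/1292) * e2 + (-1/4199) * e3 + (5/25194) * e4 + (511/120) * e5 + (61/340) * e6 + (5/442) * e7 + (-11/9945) * e8 + (-10191/2992) * e9 + (-2829/9724) * e10 + (-115/29172) * e11 + (59641/37128) * e12 + (437/2652) * e13 + (-19931/63648) * e14 + (56/1045) * e15 + (-5312/415701) * e16 + (32/13585) * e17 + (-32/124355) * e18 + (-64/663) * e19 + (8/221) * e20
  have z11 : c 1 1 = 0 := by
    linear_combination (103365/38912) * e0 + (-75479/14592) * e1 + (193125/82688) * e2 + (-517981/806208) * e3 + (197137/4837248) * e4 + (-44797/23040) * e5 + (518249/65280) * e6 + (-63269/28288) * e7 + (15937/29376) * e8 + (-69571/17408) * e9 + (-290265/56576) * e10 + (-91957/509184) * e11 + (13237319/2376192) * e12 + (1887745/509184) * e13 + (-26182855/12220416) * e14 + (-65/24) * e15 + (-111485/113373) * e16 + (57911/125970) * e17 + (-407/3990) * e18 + (5035/1989) * e19 + (-961/1768) * e20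
  have z12 : c 1 2 = 0 := by
    linear_combination (-14533/77824) * e0 + (113623/29184) * e1 + (-1570031/496128) * e2 + (561567/537472) * e3 + (-79561/1074944) * e4 + (-15565/3072) * e5 + (-130837/26112) * e6 + (443119/169728) * e7 + (-219119/254592) * e8 + (467395/34816) * e9 + (444121/113152) * e10 + (245159/339456) * e11 + (-2922219/226304) * e12 + (-104443/19968) * e13 + (36509165/8146944) * e14 + (4627/912) * e15 + (133183/75582) * e16 + (-42571/50388) * e17 + (239/1292) * e18 + (-6377/1326) * e19 + (847/816) * e20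
  have z13 : c 1 3 = 0 := by
    linear_combination (-3053/6144) * e0 + (-619/768) * e1 + (11411/13056) * e2 + (-18745/42432) * e3 + (10253/254592) * e4 + (16625/4608) * e5 + (12451/13056) * e6 + (-27785/84864) * e7 + (128363/381888) * e8 + (-132181/17408) * e9 + (-95519/56576) * e10 + (-24863/39168) * e11 + (5600155/792064) * e12 + (1466135/509184) * e13 + (-29875505/12220416) * e14 + (-67/24) * e15 + (-5833/5967) * e16 + (619/1326) * e17 + (-71/714) * e18 + (5258/1989) * e19 + (-3025/5304) * e20
  have z14 : c 1 4 = 0 := by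
    linear_combination (1493/12288) * e0 + (17/512) * e1 + (-1163/26112) * e2 + (3409/84864) * e3 + (-1127/169728) * e4 + (-2035/3072) * e5 + (-473/8704) * e6 + (-2981/56576) * e7 + (-5489/254592) * e8 + (45885/34816) * e9 + (32775/113152) * e10 + (2185/19968) * e11 + (-1946835/1584128) * e12 + (-168245/339456) * e13 + (3485075/8146944) * e14 + (23/48) * e15 + (667/3978) * e16 + (-69/884) * e17 + (23/1428) * e18 + (-605/1326) * e19 + (1045/10608) * e20
  have z20 : c 2 0 = 0 := by
    linear_combination (3855/2432) * e0 + (25/304) * e1 + (125/15504) * e2 + (25/50388) * e3 + (-125/302328) * e4 + (-1403/288) * e5 + (-305/816) * e6 + (-125/5304) * e7 + (55/23868) * e8 + (66973/11968) * e9 + (23575/38896) * e10 + (2875/350064) * e11 + (-431003/148512) * e12 + (-10925/31824) * e13 + (450539/763776) * e14 + (-70/627) * e15 + (33200/1247103) * e16 + (-40/8151) * e17 + (40/74613) * e18 + (400/1989) * e19 + (-50/663) * e20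
  have z21 : c 2 1 = 0 := by
    linear_combination (-1011/512) * e0 + (8851/3648) * e1 + (-38507/62016) * e2 + (13681/201552) * e3 + (-1285/1209312) * e4 + (31873/5760) * e5 + (-33007/5440) * e6 + (25195/21216) * e7 + (-7489/95472) * e8 + (-24929/4352) * e9 + (70813/14144) * e10 + (-72887/127296) * e11 + (236779/84864) * e12 + (-174469/127296) * e13 + (-1898765/3055104) * e14 + (-7/38) * e15 + (548/113373) * e16 + (214/20995) * e17 + (26/4845) * e18 + (488/1989) * e19 + (-77/1326) * e20
  have z22 : c 2 2 = 0 := by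
    linear_combination (10929/19456) * e0 + (-2753/2432) * e1 + (30049/41344) * e2 + (-13883/134368) * e3 + (655/806208) * e4 + (-983/768) * e5 + (4739/2176) * e6 + (-18673/14144) * e7 + (7963/63648) * e8 + (8809/8704) * e9 + (-26381/28288) * e10 + (47909/84864) * e11 + (-179607/396032) * e12 + (-16169/84864) * e13 + (24035/156672) * e14 + (13/76) * e15 + (3050/37791) * e16 + (-77/4199) * e17 + (-1/133) * e18 + (-115/663) * e19 + (33/884) * e20
  have z23 : c 2 3 = 0 := by
    linear_combination (-67/1024) * e0 + (41/384) * e1 + (-41/384) * e2 + (241/7072) * e3 + (-55/127296) * e4 + (461/2304) * e5 + (-49/384) * e6 + (6091/42432) * e7 + (-589/14688) * e8 + (-161/512) * e9 + (-1403/28288) * e10 + (-5543/254592) * e11 + (120175/396032) * e12 + (24035/254592) * e13 + (-745085/6110208) * e14 + (-1/12) * e15 + (-10/351) * e16 + (1/663) * e17 + (1/357) * e18 + (11/117) * e19 + (-55/2652) * e20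
  have z30 : c 3 0 = 0 := by
    linear_combination (-7375/14592) * e0 + (-35/608) * e1 + (-175/31008) * e2 + (-35/100776) * e3 + (175/604656) * e4 + (1081/576) * e5 + (427/1632) * e6 + (175/10608) * e7 + (-77/47736) * e8 + (-62047/23936) * e9 + (-33005/77792) * e10 + (-4025/700128) * e11 + (22133/14144) * e12 + (15295/63648) * e13 + (-522553/1527552) * e14 + (49/627) * e15 + (-23240/1247103) * e16 + (28/8151) * e17 + (-4/10659) * e18 + (-280/1989) * e19 + (35/663) * e20
  have z31 : c 3 1 = 0 := by
    linear_combination (13601/29184) * e0 + (-595/1216) * e1 + (3265/62016) * e2 + (77/201552) * e3 + (5/23712) * e4 + (-3121/1920) * e5 + (25991/16320) * e6 + (-2881/21216) * e7 + (-7/3536) * e8 + (9107/4352) * e9 + (-25431/14144) * e10 + (1405/14144) * e11 + (-701975/594048) * e12 + (30757/42432) * e13 + (2185/8704) * e14 + (1/38) * e15 + (-412/12597) * e16 + (-62/62985) * e17 + (-2/33915) * e18 + (-12/221) * e19 + (19/1326) * e20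
  have z32 : c 3 2 = 0 := by
    linear_combination (-1123/29184) * e0 + (379/3648) * e1 + (-3235/62016) * e2 + (73/201552) * e3 + (5/31008) * e4 + (23/384) * e5 + (-865/3264) * e6 + (2755/21216) * e7 + (-1/624) * e8 + (263/4352) * e9 + (2741/14144) * e10 + (-1175/14144) * e11 + (-30153/198016) * e12 + (-437/14144) * e13 + (24035/339456) * e14 + (1/38) * e15 + (20/12597) * e16 + (58/12597) * e17 + (-2/6783) * e18 + (-8/221) * e19 + (11/1326) * e20
  have z40 : c 4 0 = 0 := by
    linear_combination (163/2432) * e0 + (5/304) * e1 + (25/15504) * e2 + (5/50388) * e3 + (-25/302328) * e4 + (-79/288) * e5 + (-61/816) * e6 + (-25/5304) * e7 + (11/23868) * e8 + (5017/11968) * e9 + (4715/38896) * e10 + (575/350064) * e11 + (-41647/148512) * e12 + (-2185/31824) * e13 + (51919/763776) * e14 + (-14/627) * e15 + (6640/1247103) * e16 + (-8/8151) * e17 + (8/74613) * e18 + (80/1989) * e19 + (-10/663) * e20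
  have z41 : c 4 1 = 0 := by
    linear_combination (-423/9728) * e0 + (7/192) * e1 + (-5/62016) * e2 + (-25/201552) * e3 + (-25/403104) * e4 + (341/1920) * e5 + (-2251/16320) * e6 + (7/7072) * e7 + (19/31824) * e8 + (-1199/4352) * e9 + (2603/14144) * e10 + (-115/42432) * e11 + (115571/594048) * e12 + (-1243/14144) * e13 + (-54625/1018368) * e14 + (-1/114) * e15 + (196/37791) * e16 + (-2/3315) * e17 + (2/33915) * e18 + (10/663) * e19 + (-5/1326) * e20
  have z50 : c 5 0 = 0 := by
    linear_combination (-37/14592) * e0 + (-1/608) * e1 + (-5/31008) * e2 + (-1/100776) * e3 + (5/604656) * e4 + (31/2880) * e5 + (61/8160) * e6 + (5/10608) * e7 + (-11/238680) * e8 + (-405/23936) * e9 + (-943/77792) * e10 + (-115/700128) * e11 + (3379/297024) * e12 + (437/63648) * e13 + (-4019/1527552) * e14 + (7/3135) * e15 + (-664/1247103) * e16 + (4/40755) * e17 + (-4/373065) * e18 + (-8/1989) * e19 + (1/663) * e20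
  intro u v
  simp only [hc, Finset.sum_range_succ, Finset.sum_range_zero, Nat.reduceSub, z00, z01, z02, z03, z04, z05, z10, z11, z12, z13, z14, z20, z21, z22, z23, z30, z31, z32, z40, z41, z50]
  simp

theorem l4b : Pool.Agent.W464.WLP.L4b := by
  intro K _ _ p hp hlat hinv
  have hG : ∀ x y z : K, eval ![1, x, y, z] p = eval ![1, 0, y + 19 / 4 * x, z + 1 / 2 * x] p := by
    intro x y z
    have h1 := hinv ![x, y, z] x
    have e1 : (Fin.cons 1 (![x, y, z] + x • ![-1, 19 / 4, 1 / 2]) : Fin 4 → K) =
        ![1, 0, y + 19 / 4 * x, z + 1 / 2 * x] := by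
      funext i
      fin_cases i
      · rfl
      · change x + x * (-1) = 0
        ring
      · change y + x * (19 / 4) = y + 19 / 4 * x
        ring
      · change z + x * (1 / 2) = z + 1 / 2 * x
        ring
    have e2 : (Fin.cons 1 (![x, y, z]) : Fin 4 → K) = ![1, x, y, z] := rfl
    rw [e1, e2] at h1
    exact h1.symm
  have hq := quint_vanish _ (quint_of_homogeneous p hp) (by
    intro a b c habc
    rw [← hG]
    have ha : ∀ i : Fin 3, ((![a, b, c] : Fin 3 → ℕ) i) < 4 + 1 := by
      intro i
      fin_cases i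
      · change a < 5
        omega
      · change b < 5
        omega
      · change c < 5
        omega
    have h2 := hlat ⟨fun i => ⟨(![a, b, c] : Fin 3 → ℕ) i, ha i⟩, by
      simp [Fin.sum_univ_succ]
      omega⟩
    have e3 : Pool.Agent.W464.WLP.latW (0 : Fin 3 → K) (⟨fun i => ⟨(![a, b, c] : Fin 3 → ℕ) i, ha i⟩, by
      simp [Fin.sum_univ_succ]
      omega⟩ : Pool.Agent.W464.WLP.Lat 3 4) = ![1, (a : K), (b : K), (c : K)] := by
      funext i
      fin_cases i
      · rfl
      · change (a : K) + 0 = a
        ring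
      · change (b : K) + 0 = b
        ring
      · change (c : K) + 0 = c
        ring
    rw [e3] at h2
    exact h2)
  have hG0 : ∀ x y z : K, eval ![1, x, y, z] p = 0 := fun x y z => by rw [hG, hq]
  have h0 : (X 0 : MvPolynomial (Fin 4) K) * p = 0 := by
    refine MvPolynomial.funext fun w => ?_
    rw [map_mul, eval_X, map_zero]
    by_cases hw : w 0 = 0
    · rw [hw, zero_mul]
    · have h3 : eval w p = w 0 ^ 5 * eval ![1, w 1 / w 0, w 2 / w 0, w 3 / w 0] p := by
        rw [eval_eq', eval_eq', Finset.mul_sum]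
        refine Finset.sum_congr rfl fun d hd => ?_
        have hdeg : d 0 + d 1 + d 2 + d 3 = 5 := by
          have h1 := hp (mem_support_iff.1 hd)
          rw [Finsupp.weight_apply, Finsupp.sum_fintype _ _ (by simp)] at h1
          simpa [Fin.sum_univ_succ, add_assoc] using h1
        have h4 : ∏ i, w i ^ d i = w 0 ^ 5 * ∏ i, (![1, w 1 / w 0, w 2 / w 0, w 3 / w 0] : Fin 4 → K) i ^ d i := by
          rw [← hdeg]
          simp only [Fin.prod_univ_succ, Fin.prod_univ_zero, Matrix.cons_val_zero, one_pow, one_mul,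
            mul_one, Matrix.cons_val_succ, pow_add, div_pow]
          change w 0 ^ d 0 * (w 1 ^ d 1 * (w 2 ^ d 2 * w 3 ^ d 3)) =
            w 0 ^ d 0 * w 0 ^ d 1 * w 0 ^ d 2 * w 0 ^ d 3 *
              (w 1 ^ d 1 / w 0 ^ d 1 * (w 2 ^ d 2 / w 0 ^ d 2 * (w 3 ^ d 3 / w 0 ^ d 3)))
          field_simp
        rw [h4]
        ring
      rw [h3, hG0, mul_zero, mul_zero]
  rcases mul_eq_zero.1 h0 with h | h
  · exact absurd h (X_ne_zero 0)
  · exact h

end Pool.Agent.W454.WLP
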